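import Mathlib

/-!
# Refinement maps of polytopes onto simplices: definitions
-/

set_option autoImplicit false

namespace Pool.Agent.K4H73.Refine

open Set

/-- `d`-dimensional Euclidean space -/
abbrev Sp (d : ℕ) := EuclideanSpace ℝ (Fin d)

/-- the dimension of a nonempty set is the dimension of its affine hull -/
noncomputable def dimension {d : ℕ} (F : Set (Sp d)) : ℕ := Module.finrank ℝ (vectorSpan ℝ F)

/-- a convex polytope: the convex hull of a finite set -/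
def IsPolytope {d : ℕ} (P : Set (Sp d)) : Prop := ∃ S : Set (Sp d), S.Finite ∧ P = convexHull ℝ S

/-- a `d`-polytope in `ℝ^d` -/
def IsFullPolytope {d : ℕ} (P : Set (Sp d)) : Prop :=
  IsPolytope P ∧ P.Nonempty ∧ dimension P = d

/-- faces, the improper ones `∅` and `P` included: the sets of points of `P` where a linear
functional is maximal on `P`, and `∅` -/
def IsFace {d : ℕ} (P F : Set (Sp d)) : Prop := IsExposed ℝ P F

/-- a tower of faces `F 0 ⊂ F 1 ⊂ ⋯ ⊂ F d = P` with `F k` of dimension `k` -/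
structure IsTower {d : ℕ} (P : Set (Sp d)) (F : ℕ → Set (Sp d)) : Prop where
  face : ∀ k ≤ d, IsFace P (F k)
  nonempty : ∀ k ≤ d, (F k).Nonempty
  dim : ∀ k ≤ d, dimension (F k) = k
  chain : ∀ k < d, F k ⊂ F (k + 1)
  top : F d = P

/-- a `d`-simplex in `ℝ^d` -/
def IsSimplex {d : ℕ} (T : Set (Sp d)) : Prop :=
  ∃ v : Fin (d + 1) → Sp d, AffineIndependent ℝ v ∧ T = convexHull ℝ (range v)

variable {d : ℕ} {P T : Set (Sp d)}

/-- the image of a subset of `P` -/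
def img (ψ : P ≃ₜ T) (F : Set (Sp d)) : Set (Sp d) := {y | ∃ x : P, (x : Sp d) ∈ F ∧ (ψ x : Sp d) = y}

/-- the preimage of a subset of `T` -/
def preimg (ψ : P ≃ₜ T) (K : Set (Sp d)) : Set (Sp d) := {x | ∃ h : x ∈ P, (ψ ⟨x, h⟩ : Sp d) ∈ K}

/-- the preimage of each face of `T` is a union of faces of `P` -/
def IsRefinementMap (ψ : P ≃ₜ T) : Prop :=
  ∀ K : Set (Sp d), IsFace T K →
    ∃ 𝒮 : Set (Set (Sp d)), (∀ G ∈ 𝒮, IsFace P G) ∧ preimg ψ K = ⋃₀ 𝒮

/-- `P` is a union of finitely many polytopes on each of which `ψ` is affine -/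
def IsPiecewiseAffine (ψ : P ≃ₜ T) : Prop :=
  ∃ 𝒬 : Set (Set (Sp d)), 𝒬.Finite ∧ (∀ Q ∈ 𝒬, IsPolytope Q) ∧ P = ⋃₀ 𝒬 ∧
    ∀ Q ∈ 𝒬, ∃ f : Sp d →ᵃ[ℝ] Sp d, ∀ x : P, (x : Sp d) ∈ Q → (ψ x : Sp d) = f x

end Pool.Agent.K4H73.Refine
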