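import Pool.Agent.K4H73.Refine.Main

/-!
# No refinement map of the prism respects the tower and the extra vertex: conclusion
-/

set_option autoImplicit false

namespace Pool.Agent.K4H73.Refine

open Set

variable {n : ℕ}

/-- the vertex `x₁` -/
noncomputable def vX (n : ℕ) : Sp (n + 3) := e 1 + e (Fin.last (n + 2))

theorem one_ne_last : (1 : Fin (n + 3)) ≠ Fin.last (n + 2) := by
  intro h
  have := congrArg Fin.val h
  simp [Fin.val_last] at this

theorem one_ne_zero' : (1 : Fin (n + 3)) ≠ 0 := by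
  intro h
  have := congrArg Fin.val h
  simp at this

theorem free_one {j : Fin (n + 3)} : Free n 1 j ↔ j = 1 := by
  simp only [Free]
  constructor
  · rintro (⟨h1, h2⟩ | h)
    · apply Fin.ext
      simp only [Fin.val_one]
      omega
    · omega
  · rintro rfl
    left
    simp

theorem vX_mem : vX n ∈ tower n 1 := by
  have h := bp_add_mem (n := n) (k := 1) (j := 1) (free_one.2 rfl)
  rw [bp, if_neg (by omega)] at h
  rw [vX, add_comm (e 1)]
  exact h

theorem tower_zero {x : Sp (n + 3)} (hx : x ∈ tower n 0) : x = e (Fin.last (n + 2)) := by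
  ext j
  rw [hx.2 j, e_apply]
  rintro (⟨h1, h2⟩ | h) <;> omega

theorem tower_one {x : Sp (n + 3)} (hx : x ∈ tower n 1) :
    x = e (Fin.last (n + 2)) + x 1 • e 1 := by
  ext j
  rw [PiLp.add_apply, PiLp.smul_apply, e_apply, e_apply, smul_eq_mul]
  by_cases hj : j = 1
  · rw [hj, if_neg one_ne_last, if_pos rfl]; ring
  · rw [hx.2 j (fun h => hj (free_one.1 h)), if_neg hj]; ring

theorem mem_facet {x : Sp (n + 3)} (hx : x ∈ prism n) : x ∈ tower n (n + 2) ↔ x 0 = 0 := by
  have hf : ∀ j : Fin (n + 3), ¬ Free n (n + 2) j ↔ j = 0 := by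
    intro j
    constructor
    · intro h
      apply Fin.ext
      simp only [Free, not_or, not_and, not_le] at h
      rw [Fin.val_zero]
      omega
    · rintro rfl
      simp [Free]
  constructor
  · intro h
    rw [h.2 0 ((hf 0).2 rfl), if_neg zero_ne_last]
  · intro h
    refine ⟨hx, fun j hj => ?_⟩
    rw [(hf j).1 hj, h, if_neg zero_ne_last]

theorem exposed_singleton_of_preimg {P T : Set (Sp (n + 3))} {ψ : P ≃ₜ T}
    {x : P} {𝒮 : Set (Set (Sp (n + 3)))} (h𝒮 : ∀ G ∈ 𝒮, IsFace P G)
    (h : preimg ψ {(ψ x : Sp (n + 3))} = ⋃₀ 𝒮) : IsFace P {(x : Sp (n + 3))} := by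
  have h1 : preimg ψ {(ψ x : Sp (n + 3))} = {(x : Sp (n + 3))} := by
    ext z
    constructor
    · rintro ⟨hz, hz2⟩
      have h3 : (⟨z, hz⟩ : P) = x := ψ.injective (Subtype.ext hz2)
      exact congrArg Subtype.val h3
    · rintro rfl
      exact ⟨x.2, rfl⟩
  rw [h1] at h
  have h2 : (x : Sp (n + 3)) ∈ ⋃₀ 𝒮 := by rw [← h]; exact rfl
  obtain ⟨G, hG, hxG⟩ := h2
  have h3 : G = {(x : Sp (n + 3))} := by
    apply Subset.antisymm
    · rw [h]; exact subset_sUnion_of_mem hG
    · rintro _ rfl; exact hxG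
  rw [← h3]
  exact h𝒮 G hG

theorem img_singleton {P T : Set (Sp (n + 3))} (ψ : P ≃ₜ T) (x : P) :
    img ψ {(x : Sp (n + 3))} = {(ψ x : Sp (n + 3))} := by
  ext y
  constructor
  · rintro ⟨z, hz, rfl⟩
    rw [Subtype.ext hz]
    exact rfl
  · rintro rfl
    exact ⟨x, rfl, rfl⟩

theorem no_refinement {T : Set (Sp (n + 3))} (hT : IsSimplex T) (ψ : prism n ≃ₜ T)
    (hψ : IsRefinementMap ψ) (hV : IsFace T (img ψ {vV n}))
    (hF : ∀ i ≤ n + 3, IsFace T (img ψ (tower n i))) : False := by
  obtain ⟨b, hTb⟩ := hT.exists_basis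
  have hbT : ∀ k, b k ∈ T := by
    intro k
    rw [hTb]
    intro j
    by_cases hjk : j = k
    · rw [hjk, coord_self]; norm_num
    · rw [coord_ne b hjk]
  have hfe : ∀ k m, k ≠ m → IsFace T (edge b k m) := by
    intro k m hkm
    rw [hTb]
    exact isFace_edge b hkm
  have hfv : ∀ k, IsFace T {b k} := by
    intro k
    rw [hTb]
    exact isFace_vertex b k
  have hEV : ∀ p, IsFace T {p} → ∃ i, p = b i := by
    intro p hp
    rw [hTb] at hp
    exact eq_vertex b hp
  have hEX : ∀ (K : Set (Sp (n + 3))) (i : Fin (n + 3 + 1)) (z : Sp (n + 3)), IsFace T K → z ∈ K →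
      z ≠ b i → ∃ j, j ≠ i ∧ b j ∈ K := by
    intro K i z hK
    rw [hTb] at hK
    exact exists_vertex b hK
  -- the vertices
  let V : prism n := ⟨vV n, vV_mem⟩
  let W : prism n := ⟨vW n, vW_mem⟩
  let X₀ : prism n := ⟨e (Fin.last (n + 2)), (by
    have := q_add_mem (n := n) (Fin.last (n + 2))
    simpa [q] using this)⟩
  let X₁ : prism n := ⟨vX n, vX_mem.1⟩
  have hX₀V : X₀ ≠ V := by
    intro h
    have h1 := congrArg (fun z : prism n => (z : Sp (n + 3)) 0) h
    simp only [X₀, V] at h1
    rw [vV_zero, e_apply, if_neg zero_ne_last] at h1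
    norm_num at h1
  have hX₁V : X₁ ≠ V := by
    intro h
    have h1 := congrArg (fun z : prism n => (z : Sp (n + 3)) 0) h
    simp only [X₁, V] at h1
    rw [vV_zero, vX, PiLp.add_apply, e_apply, e_apply, if_neg zero_ne_last,
      if_neg one_ne_zero'.symm] at h1
    norm_num at h1
  have hX₀X₁ : X₁ ≠ X₀ := by
    intro h
    have h1 := congrArg (fun z : prism n => (z : Sp (n + 3)) 1) h
    simp only [X₁, X₀] at h1
    rw [vX, PiLp.add_apply, e_apply, e_apply, if_neg one_ne_last, if_pos rfl] at h1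
    norm_num at h1
  have hVW : W ≠ V := by
    intro h
    have h1 := congrArg (fun z : prism n => (z : Sp (n + 3)) (Fin.last (n + 2))) h
    simp only [W, V] at h1
    rw [vV_last, vW, PiLp.add_apply, e_apply, e_apply, if_neg zero_ne_last.symm, if_pos rfl] at h1
    norm_num at h1
  -- `ψ V` and `ψ X₀` are vertices of `T`
  obtain ⟨m, hm⟩ := hEV (ψ V : Sp (n + 3)) (by
    rw [← img_singleton ψ V]; exact hV)
  obtain ⟨i, hi⟩ := hEV (ψ X₀ : Sp (n + 3)) (by
    rw [← img_singleton ψ X₀]
    have h0 : tower n 0 = {(X₀ : Sp (n + 3))} := by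
      apply Subset.antisymm
      · intro x hx
        exact tower_zero hx
      · rintro _ rfl
        have := bp_mem (n := n) 0
        rwa [bp, if_neg (by omega)] at this
    rw [← h0]
    exact hF 0 (by omega))
  -- `ψ X₁` is a vertex of `T`
  obtain ⟨j, hji, hj⟩ : ∃ j, j ≠ i ∧ (ψ X₁ : Sp (n + 3)) = b j := by
    obtain ⟨j, hji, x, hx, hxj⟩ := hEX _ i (ψ X₁ : Sp (n + 3)) (hF 1 (by omega))
      ⟨X₁, vX_mem, rfl⟩ (by
        rw [← hi]
        intro h
        exact hX₀X₁ (ψ.injective (Subtype.ext h)))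
    refine ⟨j, hji, ?_⟩
    obtain ⟨𝒮, h𝒮, hS⟩ := hψ _ (hfv j)
    have hface : IsFace (prism n) {(x : Sp (n + 3))} := by
      apply exposed_singleton_of_preimg (ψ := ψ) (x := x) h𝒮
      rw [hxj]
      exact hS
    have hx1 := tower_one hx
    have hx0 : 0 ≤ (x : Sp (n + 3)) 1 := x.2.1 1
    have hxle : (x : Sp (n + 3)) 1 ≤ 1 := by
      have h := x.2.2.1
      have := Finset.single_le_sum (f := fun i : Fin (n + 2) => (x : Sp (n + 3)) i.castSucc)
        (fun i _ => x.2.1 _) (Finset.mem_univ 1)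
      simp only [Fin.castSucc_one] at this
      linarith
    rcases hx0.eq_or_lt with h0 | h0
    · exfalso
      rw [← h0, zero_smul, add_zero] at hx1
      have h2 : x = X₀ := Subtype.ext hx1
      rw [h2, hi] at hxj
      exact hji (b.ind.injective hxj).symm
    rcases hxle.eq_or_lt with h1 | h1
    · have h2 : x = X₁ := by
        apply Subtype.ext
        rw [hx1, h1, one_smul]
        exact add_comm _ _
      rw [← h2, hxj]
    · exfalso
      have hseg : (x : Sp (n + 3)) ∈ openSegment ℝ (X₀ : Sp (n + 3)) (X₁ : Sp (n + 3)) := by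
        refine ⟨1 - (x : Sp (n + 3)) 1, (x : Sp (n + 3)) 1, by linarith, h0, by ring, ?_⟩
        conv_rhs => rw [hx1]
        simp only [X₀, X₁, vX]
        module
      have h3 := hface.isExtreme.left_mem_of_mem_openSegment X₀.2 X₁.2 rfl hseg
      have h4 : X₀ = x := Subtype.ext h3
      rw [← h4, hi] at hxj
      exact hji (b.ind.injective hxj).symm
  have him : i ≠ m := by
    rintro rfl
    exact hX₀V (ψ.injective (Subtype.ext (hi.trans hm.symm)))
  have hjm : j ≠ m := by
    rintro rfl
    exact hX₁V (ψ.injective (Subtype.ext (hj.trans hm.symm)))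
  -- the facet
  have hN := (hF (n + 2) (by omega)).isExtreme
  have hVN : (ψ V : Sp (n + 3)) ∉ img ψ (tower n (n + 2)) := by
    rintro ⟨x, hx, hxV⟩
    have h1 : x = V := ψ.injective (Subtype.ext hxV)
    subst h1
    have := (mem_facet vV_mem).1 hx
    rw [vV_zero] at this
    norm_num at this
  -- the two paths
  have key : ∀ (k : Fin (n + 3 + 1)) (X : prism n), k ≠ m → (ψ X : Sp (n + 3)) = b k →
      (X : Sp (n + 3)) 0 = 0 → (X : Sp (n + 3)) (Fin.last (n + 2)) = 1 →
      (ψ W : Sp (n + 3)) ∈ edge b k m := by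
    intro k X hkm hX hX0 hXl
    obtain ⟨𝒮, h𝒮, hS⟩ := hψ _ (hfe k m hkm)
    have hconn : IsPreconnected (preimg ψ (edge b k m)) := by
      have hc : IsPreconnected (edge b k m) := (convex_segment _ _).isPreconnected
      have hsub : edge b k m ⊆ T := (hfe k m hkm).subset
      have h1 : preimg ψ (edge b k m) =
          (fun t : T => (ψ.symm t : Sp (n + 3))) '' {t : T | (t : Sp (n + 3)) ∈ edge b k m} := by
        ext z
        constructor
        · rintro ⟨hz, hz2⟩
          exact ⟨ψ ⟨z, hz⟩, hz2, by simp⟩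
        · rintro ⟨t, ht, rfl⟩
          refine ⟨(ψ.symm t).2, ?_⟩
          have : ψ ⟨(ψ.symm t : Sp (n + 3)), (ψ.symm t).2⟩ = t := ψ.apply_symm_apply t
          rw [this]
          exact ht
      rw [h1]
      apply IsPreconnected.image
      · rw [← Topology.IsInducing.subtypeVal.isPreconnected_image]
        have h2 : (Subtype.val '' {t : T | (t : Sp (n + 3)) ∈ edge b k m}) = edge b k m := by
          ext y
          constructor
          · rintro ⟨t, ht, rfl⟩
            exact ht
          · intro hy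
            exact ⟨⟨y, hsub hy⟩, hy, rfl⟩
        rw [h2]
        exact hc
      · exact (continuous_subtype_val.comp ψ.symm.continuous).continuousOn
    have hVA : vV n ∈ preimg ψ (edge b k m) := by
      refine ⟨vV_mem, ?_⟩
      change (ψ V : Sp (n + 3)) ∈ _
      rw [hm]
      exact right_mem_segment ℝ _ _
    have hXA : (X : Sp (n + 3)) ∈ preimg ψ (edge b k m) := by
      refine ⟨X.2, ?_⟩
      change (ψ X : Sp (n + 3)) ∈ _
      rw [hX]
      exact left_mem_segment ℝ _ _
    have huniq : ∀ z ∈ preimg ψ (edge b k m), z 0 = 0 → z = (X : Sp (n + 3)) := by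
      rintro z ⟨hz, hz2⟩ hz0
      have hzN : (ψ ⟨z, hz⟩ : Sp (n + 3)) ∈ img ψ (tower n (n + 2)) :=
        ⟨⟨z, hz⟩, (mem_facet hz).2 hz0, rfl⟩
      obtain ⟨α, β, hα, hβ, hab, hz3⟩ := id hz2
      rcases hβ.eq_or_lt with h0 | h0
      · rw [← h0, add_zero] at hab
        rw [hab, ← h0, one_smul, zero_smul, add_zero, ← hX] at hz3
        exact (congrArg Subtype.val (ψ.injective (Subtype.ext hz3))).symm
      · exfalso
        apply hVN
        rcases hα.eq_or_lt with h1 | h1
        · rw [← h1, zero_add] at hab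
          rw [← h1, hab, one_smul, zero_smul, zero_add, ← hm] at hz3
          rw [hz3]
          exact hzN
        · rw [hm]
          refine hN.left_mem_of_mem_openSegment (hbT m) (hbT k) hzN ⟨β, α, h0, h1, by linarith, ?_⟩
          rw [← hz3, add_comm (β • b m)]
    obtain ⟨hW1, hW2⟩ := W_mem h𝒮 hS hconn hVA hXA hX0 hXl huniq
    exact hW2
  have hW1 := key i X₀ him hi (by
    change (e (Fin.last (n + 2)) : Sp (n + 3)) 0 = 0
    rw [e_apply, if_neg zero_ne_last]) (by
    change (e (Fin.last (n + 2)) : Sp (n + 3)) (Fin.last (n + 2)) = 1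
    rw [e_apply, if_pos rfl])
  have hW2 := key j X₁ hjm hj (by
    change (vX n) 0 = 0
    rw [vX, PiLp.add_apply, e_apply, e_apply, if_neg zero_ne_last,
      if_neg one_ne_zero'.symm, add_zero]) (by
    change (vX n) (Fin.last (n + 2)) = 1
    rw [vX, PiLp.add_apply, e_apply, e_apply, if_pos rfl, if_neg one_ne_last.symm, zero_add])
  -- the two segments meet only in `b m`
  obtain ⟨α, β, hα, hβ, hab, hz⟩ := hW1
  obtain ⟨α', β', hα', hβ', hab', hz'⟩ := hW2
  have hcoord : ∀ (k : Fin (n + 3 + 1)) (s t : ℝ), s + t = 1 →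
      b.coord i (s • b k + t • b m) = s * b.coord i (b k) + t * b.coord i (b m) := by
    intro k s t hst
    have h1 : t = 1 - s := by linarith
    subst h1
    have := (b.coord i).apply_lineMap (b m) (b k) s
    rw [AffineMap.lineMap_apply_module, AffineMap.lineMap_apply_module] at this
    rw [add_comm (s • b k), this, smul_eq_mul, smul_eq_mul, add_comm]
  have e1 := congrArg (b.coord i) hz
  have e2 := congrArg (b.coord i) hz'
  rw [hcoord i α β hab, coord_self, coord_ne b him] at e1
  rw [hcoord j α' β' hab', coord_ne b hji.symm, coord_ne b him] at e2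
  have hα0 : α = 0 := by linarith
  have hβ1 : β = 1 := by linarith
  rw [hα0, hβ1, zero_smul, one_smul, zero_add, ← hm] at hz
  exact hVW (ψ.injective (Subtype.ext hz)).symm

end Pool.Agent.K4H73.Refine
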