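import Pool.Agent.K4H73.Refine.Defs

/-!
# The simplex side
-/

set_option autoImplicit false

namespace Pool.Agent.K4H73.Refine

open Set

variable {d : ℕ}

/-- `T` given by an affine basis -/
theorem IsSimplex.exists_basis {T : Set (Sp d)} (hT : IsSimplex T) :
    ∃ b : AffineBasis (Fin (d + 1)) ℝ (Sp d), T = {x | ∀ i, 0 ≤ b.coord i x} := by
  obtain ⟨v, hv, rfl⟩ := hT
  have htop : affineSpan ℝ (range v) = ⊤ := by
    rw [hv.affineSpan_eq_top_iff_card_eq_finrank_add_one]
    simp
  refine ⟨⟨v, hv, htop⟩, ?_⟩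
  exact AffineBasis.convexHull_eq_nonneg_coord ⟨v, hv, htop⟩

variable (b : AffineBasis (Fin (d + 1)) ℝ (Sp d))

theorem coord_self (i : Fin (d + 1)) : b.coord i (b i) = 1 := b.coord_apply_eq i

theorem coord_ne {i j : Fin (d + 1)} (h : i ≠ j) : b.coord i (b j) = 0 := b.coord_apply_ne h

/-- the faces spanned by at most two vertices -/
def edge (i m : Fin (d + 1)) : Set (Sp d) := segment ℝ (b i) (b m)

theorem mem_edge {i m : Fin (d + 1)} (him : i ≠ m) {x : Sp d} (h0 : ∀ j, 0 ≤ b.coord j x)
    (h : b.coord i x + b.coord m x = 1) : x ∈ edge b i m := by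
  classical
  have hz : ∀ j, j ≠ i → j ≠ m → b.coord j x = 0 := by
    intro j hji hjm
    have hs := b.sum_coord_apply_eq_one x
    rw [← Finset.add_sum_erase _ _ (Finset.mem_univ i),
      ← Finset.add_sum_erase _ _ (Finset.mem_erase.2 ⟨him.symm, Finset.mem_univ m⟩)] at hs
    have h1 : ∑ j ∈ (Finset.univ.erase i).erase m, b.coord j x = 0 := by linarith
    rw [Finset.sum_eq_zero_iff_of_nonneg (fun j _ => h0 j)] at h1
    exact h1 j (by simp [hji, hjm])
  refine ⟨b.coord i x, b.coord m x, h0 i, h0 m, h, ?_⟩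
  have hx := b.linear_combination_coord_eq_self x
  rw [← Finset.add_sum_erase _ _ (Finset.mem_univ i),
      ← Finset.add_sum_erase _ _ (Finset.mem_erase.2 ⟨him.symm, Finset.mem_univ m⟩)] at hx
  rw [Finset.sum_eq_zero, add_zero] at hx
  · exact hx
  · intro j hj
    rw [hz j (by simp at hj; exact hj.2) (by simp at hj; exact hj.1), zero_smul]

theorem isFace_edge {i m : Fin (d + 1)} (him : i ≠ m) :
    IsFace {x | ∀ i, 0 ≤ b.coord i x} (edge b i m) := by
  intro _
  let f : Sp d →ᵃ[ℝ] ℝ := b.coord i + b.coord m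
  let l : StrongDual ℝ (Sp d) := LinearMap.toContinuousLinearMap f.linear
  have hl : ∀ x, l x = f x - f 0 := by
    intro x
    have := f.linearMap_vsub x 0
    simp only [vsub_eq_sub, sub_zero] at this
    exact this
  have hf : ∀ x, f x = b.coord i x + b.coord m x := fun x => rfl
  have hle : ∀ x, (∀ i, 0 ≤ b.coord i x) → f x ≤ 1 := by
    intro x hx
    classical
    have hs := b.sum_coord_apply_eq_one x
    rw [← Finset.add_sum_erase _ _ (Finset.mem_univ i),
      ← Finset.add_sum_erase _ _ (Finset.mem_erase.2 ⟨him.symm, Finset.mem_univ m⟩)] at hs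
    have : 0 ≤ ∑ j ∈ (Finset.univ.erase i).erase m, b.coord j x :=
      Finset.sum_nonneg fun j _ => hx j
    rw [hf]
    linarith
  have hbi : ∀ k, ∀ j, 0 ≤ b.coord j (b k) := by
    intro k j
    by_cases hjk : j = k
    · rw [hjk, coord_self]; norm_num
    · rw [coord_ne b hjk]
  refine ⟨l, ?_⟩
  ext x
  simp only [mem_setOf_eq]
  constructor
  · intro hx
    obtain ⟨α, β, hα, hβ, hab, rfl⟩ := hx
    have hconv : Convex ℝ {x | ∀ i, 0 ≤ b.coord i x} := by
      rw [← AffineBasis.convexHull_eq_nonneg_coord]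
      exact convex_convexHull ℝ _
    have hmem : α • b i + β • b m ∈ {x | ∀ i, 0 ≤ b.coord i x} :=
      hconv (hbi i) (hbi m) hα hβ hab
    refine ⟨hmem, ?_⟩
    have hval : f (α • b i + β • b m) = 1 := by
      have e1 : l (α • b i + β • b m) = α * (f (b i) - f 0) + β * (f (b m) - f 0) := by
        rw [map_add, map_smul, map_smul, hl, hl, smul_eq_mul, smul_eq_mul]
      have e2 : f (b i) = 1 := by rw [hf, coord_self, coord_ne b him.symm, add_zero]
      have e3 : f (b m) = 1 := by rw [hf, coord_self, coord_ne b him, zero_add]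
      rw [hl, e2, e3] at e1
      have : α * (1 - f 0) + β * (1 - f 0) = (α + β) * (1 - f 0) := by ring
      rw [this, hab] at e1
      linarith
    intro y hy
    rw [hl, hl, hval]
    have := hle y hy
    linarith
  · rintro ⟨hx, hmax⟩
    have h1 := hmax (b i) (hbi i)
    rw [hl, hl] at h1
    have e2 : f (b i) = 1 := by rw [hf, coord_self, coord_ne b him.symm, add_zero]
    have h2 := hle x hx
    apply mem_edge b him hx
    rw [← hf]
    linarith

theorem isFace_vertex (i : Fin (d + 1)) :
    IsFace {x | ∀ i, 0 ≤ b.coord i x} {b i} := by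
  intro _
  let f : Sp d →ᵃ[ℝ] ℝ := b.coord i
  let l : StrongDual ℝ (Sp d) := LinearMap.toContinuousLinearMap f.linear
  have hl : ∀ x, l x = f x - f 0 := by
    intro x
    have := f.linearMap_vsub x 0
    simp only [vsub_eq_sub, sub_zero] at this
    exact this
  have hle : ∀ x, (∀ i, 0 ≤ b.coord i x) → b.coord i x ≤ 1 := by
    intro x hx
    have hs := b.sum_coord_apply_eq_one x
    rw [← hs]
    exact Finset.single_le_sum (f := fun j => b.coord j x) (fun j _ => hx j) (Finset.mem_univ i)
  have hbi : ∀ k, ∀ j, 0 ≤ b.coord j (b k) := by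
    intro k j
    by_cases hjk : j = k
    · rw [hjk, coord_self]; norm_num
    · rw [coord_ne b hjk]
  refine ⟨l, ?_⟩
  ext x
  simp only [mem_setOf_eq, mem_singleton_iff]
  constructor
  · rintro rfl
    refine ⟨hbi i, fun y hy => ?_⟩
    rw [hl, hl]
    have h1 := hle y hy
    have h2 := coord_self b i
    change b.coord i y - _ ≤ b.coord i (b i) - _
    rw [h2]
    linarith
  · rintro ⟨hx, hmax⟩
    have h1 := hmax (b i) (hbi i)
    rw [hl, hl] at h1
    have h2 : b.coord i x = 1 := by
      have h3 := hle x hx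
      have h4 := coord_self b i
      change b.coord i (b i) - _ ≤ b.coord i x - _ at h1
      rw [h4] at h1
      linarith
    classical
    have hz : ∀ j, j ≠ i → b.coord j x = 0 := by
      intro j hji
      have hs := b.sum_coord_apply_eq_one x
      rw [← Finset.add_sum_erase _ _ (Finset.mem_univ i)] at hs
      have h1 : ∑ j ∈ Finset.univ.erase i, b.coord j x = 0 := by linarith
      rw [Finset.sum_eq_zero_iff_of_nonneg (fun j _ => hx j)] at h1
      exact h1 j (by simp [hji])
    have hx := b.linear_combination_coord_eq_self x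
    rw [← Finset.add_sum_erase _ _ (Finset.mem_univ i), h2, one_smul, Finset.sum_eq_zero,
      add_zero] at hx
    · exact hx.symm
    · intro j hj
      rw [hz j (by simp at hj; exact hj), zero_smul]

/-- a one-point face of a simplex is a vertex -/
theorem eq_vertex {p : Sp d} (hp : IsFace {x | ∀ i, 0 ≤ b.coord i x} {p}) :
    ∃ i, p = b i := by
  have h1 := hp.isExtreme
  have h2 : p ∈ (convexHull ℝ (range b)).extremePoints ℝ := by
    rw [AffineBasis.convexHull_eq_nonneg_coord]
    exact isExtreme_singleton.1 h1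
  obtain ⟨i, hi⟩ := extremePoints_convexHull_subset h2
  exact ⟨i, hi.symm⟩

/-- a face of a simplex with a point other than a given vertex has a vertex other than it -/
theorem exists_vertex {K : Set (Sp d)} (hK : IsFace {x | ∀ i, 0 ≤ b.coord i x} K)
    {i : Fin (d + 1)} {z : Sp d} (hz : z ∈ K) (hzi : z ≠ b i) : ∃ j, j ≠ i ∧ b j ∈ K := by
  classical
  obtain ⟨l, hl⟩ := hK ⟨z, hz⟩
  rw [hl] at hz
  obtain ⟨hz1, hz2⟩ := hz
  have hbi : ∀ k, ∀ j, 0 ≤ b.coord j (b k) := by
    intro k j
    by_cases hjk : j = k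
    · rw [hjk, coord_self]; norm_num
    · rw [coord_ne b hjk]
  by_contra hcon
  push Not at hcon
  have hlt : ∀ j, j ≠ i → l (b j) < l z := by
    intro j hj
    by_contra hge
    push Not at hge
    apply hcon j hj
    rw [hl]
    exact ⟨hbi j, fun y hy => (hz2 y hy).trans hge⟩
  have hcz : ∀ j, j ≠ i → b.coord j z = 0 := by
    intro j hj
    have e1 : ∑ k, b.coord k z * (l z - l (b k)) = 0 := by
      have e2 := congrArg l (b.linear_combination_coord_eq_self z)
      rw [map_sum] at e2
      simp only [map_smul, smul_eq_mul] at e2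
      simp only [mul_sub, Finset.sum_sub_distrib, ← Finset.sum_mul, b.sum_coord_apply_eq_one]
      rw [e2]; ring
    rw [Finset.sum_eq_zero_iff_of_nonneg] at e1
    · have e3 := e1 j (Finset.mem_univ j)
      rcases mul_eq_zero.1 e3 with e3 | e3
      · exact e3
      · have := hlt j hj
        linarith
    · intro k _
      have := hz2 (b k) (hbi k)
      exact mul_nonneg (hz1 k) (by linarith)
  apply hzi
  have hs := b.sum_coord_apply_eq_one z
  rw [← Finset.add_sum_erase _ _ (Finset.mem_univ i), Finset.sum_eq_zero, add_zero] at hs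
  · have hx := b.linear_combination_coord_eq_self z
    rw [← Finset.add_sum_erase _ _ (Finset.mem_univ i), hs, one_smul, Finset.sum_eq_zero,
      add_zero] at hx
    · exact hx.symm
    · intro j hj
      rw [hcz j (by simp at hj; exact hj), zero_smul]
  · intro j hj
    exact hcz j (by simp at hj; exact hj)

end Pool.Agent.K4H73.Refine
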