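import Pool.Agent.K4H73.Refine.Prism
import Pool.Agent.K4H73.Refine.Simplex

/-!
# No refinement map of the prism respects the tower and the extra vertex
-/

set_option autoImplicit false

namespace Pool.Agent.K4H73.Refine

open Set

variable {n : ℕ}

/-- the vertex `V` -/
noncomputable def vV (n : ℕ) : Sp (n + 3) := e 0

/-- the vertex `W` -/
noncomputable def vW (n : ℕ) : Sp (n + 3) := e 0 + e (Fin.last (n + 2))

theorem q_zero : (q 0 : Sp (n + 3)) = e 0 := by
  rw [q, if_neg]
  exact (Fin.last_pos).ne

theorem vV_mem : vV n ∈ prism n := by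
  have := q_mem (n := n) 0
  rwa [q_zero] at this

theorem vW_mem : vW n ∈ prism n := by
  have := q_add_mem (n := n) 0
  rwa [q_zero] at this

theorem zero_ne_last : (0 : Fin (n + 3)) ≠ Fin.last (n + 2) := (Fin.last_pos).ne

theorem vV_zero : (vV n) 0 = 1 := by rw [vV, e_apply, if_pos rfl]

theorem vV_last : (vV n) (Fin.last (n + 2)) = 0 := by
  rw [vV, e_apply, if_neg zero_ne_last.symm]

theorem isFace_V : IsFace (prism n) {vV n} := by
  classical
  intro _
  let l : StrongDual ℝ (Sp (n + 3)) := EuclideanSpace.proj 0 - EuclideanSpace.proj (Fin.last (n + 2))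
  have hl : ∀ x : Sp (n + 3), l x = x 0 - x (Fin.last (n + 2)) := fun x => rfl
  have h01 : ∀ x ∈ prism n, x 0 ≤ 1 := by
    intro x hx
    have h := hx.2.1
    have := Finset.single_le_sum (f := fun i : Fin (n + 2) => x i.castSucc)
      (fun i _ => hx.1 _) (Finset.mem_univ 0)
    simp only [Fin.castSucc_zero] at this
    linarith
  refine ⟨l, ?_⟩
  ext x
  simp only [mem_singleton_iff]
  constructor
  · rintro rfl
    refine ⟨vV_mem, fun y hy => ?_⟩
    rw [hl, hl, vV_zero, vV_last]
    have h1 := h01 y hy
    have h2 := hy.1 (Fin.last (n + 2))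
    linarith
  · rintro ⟨hx, hmax⟩
    have h1 := hmax _ vV_mem
    rw [hl, hl, vV_zero, vV_last] at h1
    have h2 := h01 x hx
    have h3 := hx.1 (Fin.last (n + 2))
    have h4 : x 0 = 1 := by linarith
    have h5 : x (Fin.last (n + 2)) = 0 := by linarith
    ext j
    rw [vV, e_apply]
    split_ifs with hj
    · rw [hj, h4]
    · by_cases hjl : j = Fin.last (n + 2)
      · rw [hjl, h5]
      · obtain ⟨i, rfl⟩ := Fin.exists_castSucc_eq.2 hjl
        have hi0 : i ≠ 0 := by
          rintro rfl
          exact hj rfl
        have h6 := Finset.add_le_sum (f := fun i : Fin (n + 2) => x i.castSucc)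
          (fun i _ => hx.1 _) (Finset.mem_univ 0) (Finset.mem_univ i) hi0.symm
        simp only [Fin.castSucc_zero] at h6
        have h7 := hx.2.1
        have h8 := hx.1 i.castSucc
        linarith

/-- The key point: a connected union of faces containing `V` and a point of height one on the
facet `x 0 = 0`, and no other point of this facet, contains `W`. -/
theorem W_mem {A : Set (Sp (n + 3))} {𝒮 : Set (Set (Sp (n + 3)))}
    (h𝒮 : ∀ G ∈ 𝒮, IsFace (prism n) G) (hA : A = ⋃₀ 𝒮) (hconn : IsPreconnected A)
    (hV : vV n ∈ A) {p : Sp (n + 3)} (hp : p ∈ A) (hp0 : p 0 = 0)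
    (hpl : p (Fin.last (n + 2)) = 1) (huniq : ∀ z ∈ A, z 0 = 0 → z = p) : vW n ∈ A := by
  classical
  by_contra hW
  have hVp : vV n ≠ p := by
    intro h
    have := vV_zero (n := n)
    rw [h, hp0] at this
    norm_num at this
  have hsub : A ⊆ {vV n, p} := by
    intro z hz
    rw [hA] at hz
    obtain ⟨G, hG, hzG⟩ := hz
    have hGA : G ⊆ A := by
      rw [hA]
      exact subset_sUnion_of_mem hG
    have hext := (h𝒮 G hG).isExtreme
    have hzP := hext.subset hzG
    by_cases hz0 : z 0 = 0
    · exact Or.inr (huniq z (hGA hzG) hz0)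
    have hz0' : 0 < z 0 := lt_of_le_of_ne (hzP.1 0) (Ne.symm hz0)
    have hz01 : z 0 ≤ 1 := by
      have h := hzP.2.1
      have := Finset.single_le_sum (f := fun i : Fin (n + 2) => z i.castSucc)
        (fun i _ => hzP.1 _) (Finset.mem_univ 0)
      simp only [Fin.castSucc_zero] at this
      linarith
    by_cases hzl : z (Fin.last (n + 2)) = 0
    · by_cases hz1 : z 0 = 1
      · left
        ext j
        rw [vV, e_apply]
        split_ifs with hj
        · rw [hj, hz1]
        · by_cases hjl : j = Fin.last (n + 2)
          · rw [hjl, hzl]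
          · obtain ⟨i, rfl⟩ := Fin.exists_castSucc_eq.2 hjl
            have hi0 : i ≠ 0 := by
              rintro rfl
              exact hj rfl
            have h6 := Finset.add_le_sum (f := fun i : Fin (n + 2) => z i.castSucc)
              (fun i _ => hzP.1 _) (Finset.mem_univ 0) (Finset.mem_univ i) hi0.symm
            simp only [Fin.castSucc_zero] at h6
            have h7 := hzP.2.1
            have h8 := hzP.1 i.castSucc
            linarith
      · exfalso
        have hlt : z 0 < 1 := lt_of_le_of_ne hz01 hz1
        have hpos : 0 < 1 - z 0 := by linarith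
        set y : Sp (n + 3) := (1 - z 0)⁻¹ • (z - z 0 • e 0) with hy
        have hyi : ∀ i, y i = (1 - z 0)⁻¹ * (z i - z 0 * (e 0 : Sp (n + 3)) i) := by
          intro i
          rw [hy, PiLp.smul_apply, PiLp.sub_apply, PiLp.smul_apply, smul_eq_mul, smul_eq_mul]
        have hy0 : y 0 = 0 := by
          rw [hyi, e_apply, if_pos rfl]; ring
        have hyj : ∀ i, i ≠ 0 → y i = (1 - z 0)⁻¹ * z i := by
          intro i hi
          rw [hyi, e_apply, if_neg hi]; ring
        have hyl : y (Fin.last (n + 2)) = 0 := by
          rw [hyj _ zero_ne_last.symm, hzl, mul_zero]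
        have hyP : y ∈ prism n := by
          refine ⟨fun i => ?_, ?_, ?_⟩
          · by_cases hi : i = 0
            · rw [hi, hy0]
            · rw [hyj i hi]
              exact mul_nonneg (inv_nonneg.2 hpos.le) (hzP.1 i)
          · simp only [hyi]
            rw [← Finset.mul_sum, Finset.sum_sub_distrib, ← Finset.mul_sum]
            have := sum_e_castSucc (n := n) 0
            rw [Fin.castSucc_zero] at this
            rw [this, mul_one, inv_mul_le_iff₀ hpos]
            have := hzP.2.1
            linarith
          · rw [hyl]; norm_num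
        have hseg : z ∈ openSegment ℝ y (vV n) := by
          refine ⟨1 - z 0, z 0, hpos, hz0', by ring, ?_⟩
          rw [hy, smul_smul, mul_inv_cancel₀ hpos.ne', one_smul, vV, sub_add_cancel]
        have hyG := hext.left_mem_of_mem_openSegment hyP vV_mem hzG hseg
        have := huniq y (hGA hyG) hy0
        rw [this, hpl] at hyl
        norm_num at hyl
    · exfalso
      have hzl' : 0 < z (Fin.last (n + 2)) := lt_of_le_of_ne (hzP.1 _) (Ne.symm hzl)
      apply hW
      apply hGA
      set t := z (Fin.last (n + 2)) with ht
      have ht1 : t ≤ 1 := hzP.2.2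
      set ε := z 0 * t with hε
      have hεpos : 0 < ε := mul_pos hz0' hzl'
      have hεt : ε ≤ t := by
        rw [hε]; exact mul_le_of_le_one_left hzl'.le hz01
      have hεz : ε ≤ z 0 := by
        rw [hε]; exact mul_le_of_le_one_right hz0'.le ht1
      set u : Sp (n + 3) := z + ε • (z - vW n) with hu
      have hui : ∀ i, u i = z i + ε * (z i - ((e 0 : Sp (n + 3)) i +
          (e (Fin.last (n + 2)) : Sp (n + 3)) i)) := by
        intro i
        rw [hu, PiLp.add_apply, PiLp.smul_apply, PiLp.sub_apply, smul_eq_mul, vW, PiLp.add_apply]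
      have huP : u ∈ prism n := by
        refine ⟨fun i => ?_, ?_, ?_⟩
        · rw [hui, e_apply, e_apply]
          by_cases hi0 : i = 0
          · rw [if_pos hi0, if_neg (by rw [hi0]; exact zero_ne_last), hi0]
            nlinarith
          · by_cases hil : i = Fin.last (n + 2)
            · rw [if_neg hi0, if_pos hil, hil]
              nlinarith
            · rw [if_neg hi0, if_neg hil]
              have := hzP.1 i
              have := mul_nonneg hεpos.le this
              linarith
        · simp only [hui, Finset.sum_add_distrib, ← Finset.mul_sum, Finset.sum_sub_distrib]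
          have h0 := sum_e_castSucc (n := n) 0
          rw [Fin.castSucc_zero] at h0
          rw [h0, sum_e_last]
          have h1 := hzP.2.1
          nlinarith
        · rw [hui, e_apply, e_apply, if_neg zero_ne_last.symm, if_pos rfl]
          nlinarith
      have hseg : z ∈ openSegment ℝ (vW n) u := by
        have h1ε : 0 < 1 + ε := by linarith
        refine ⟨ε / (1 + ε), 1 / (1 + ε), by positivity, by positivity, ?_, ?_⟩
        · rw [← add_div, add_comm ε 1, div_self h1ε.ne']
        · rw [hu]
          have : (ε / (1 + ε)) • vW n + (1 / (1 + ε)) • (z + ε • (z - vW n)) =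
              ((1 / (1 + ε)) * (1 + ε)) • z := by
            module
          rw [this, one_div, inv_mul_cancel₀ h1ε.ne', one_smul]
      exact hext.left_mem_of_mem_openSegment vW_mem huP hzG hseg
  have hinf := hconn.infinite_of_nontrivial ⟨_, hV, p, hp, hVp⟩
  exact hinf (((finite_singleton p).insert _).subset hsub)

end Pool.Agent.K4H73.Refine
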