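import Pool.Agent.K4H73.Refine.Defs

/-!
# The prism over a simplex and a tower of its faces
-/

set_option autoImplicit false

namespace Pool.Agent.K4H73.Refine

open Set

variable (n : ℕ)

/-- the prism over a simplex of dimension `n + 2`, in dimension `n + 3` -/
def prism : Set (Sp (n + 3)) :=
  {x | (∀ i, 0 ≤ x i) ∧ ∑ i : Fin (n + 2), x i.castSucc ≤ 1 ∧ x (Fin.last (n + 2)) ≤ 1}

/-- the coordinates which are free on `tower n k` -/
def Free (k : ℕ) (j : Fin (n + 3)) : Prop := (1 ≤ j.val ∧ j.val ≤ k) ∨ n + 3 ≤ k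

instance (k : ℕ) : DecidablePred (Free n k) := fun _ => inferInstanceAs (Decidable (_ ∨ _))

/-- the tower of faces -/
def tower (k : ℕ) : Set (Sp (n + 3)) :=
  {x | x ∈ prism n ∧ ∀ j, ¬ Free n k j → x j = if j = Fin.last (n + 2) then 1 else 0}

/-- unit vectors -/
noncomputable def e {n : ℕ} (j : Fin (n + 3)) : Sp (n + 3) := EuclideanSpace.single j 1

variable {n}

theorem e_apply (j i : Fin (n + 3)) : (e j) i = if i = j then (1 : ℝ) else 0 := by
  simp [e]

theorem e_nonneg (j i : Fin (n + 3)) : 0 ≤ (e j) i := by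
  rw [e_apply]; split_ifs <;> norm_num

theorem sum_e_castSucc (j : Fin (n + 2)) :
    ∑ i : Fin (n + 2), (e j.castSucc) i.castSucc = 1 := by
  simp [e_apply, Fin.castSucc_inj]

theorem sum_e_last : ∑ i : Fin (n + 2), (e (Fin.last (n + 2)) : Sp (n + 3)) i.castSucc = 0 := by
  apply Finset.sum_eq_zero
  intro i _
  rw [e_apply, if_neg]
  exact (Fin.castSucc_lt_last i).ne

theorem convex_prism : Convex ℝ (prism n) := by
  intro x hx y hy a b ha hb hab
  refine ⟨fun i => ?_, ?_, ?_⟩
  · have h1 := hx.1 i
    have h2 := hy.1 i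
    simp only [PiLp.add_apply, PiLp.smul_apply, smul_eq_mul]
    positivity
  · simp only [PiLp.add_apply, PiLp.smul_apply, smul_eq_mul, Finset.sum_add_distrib,
      ← Finset.mul_sum]
    have h1 := mul_le_mul_of_nonneg_left hx.2.1 ha
    have h2 := mul_le_mul_of_nonneg_left hy.2.1 hb
    linarith
  · simp only [PiLp.add_apply, PiLp.smul_apply, smul_eq_mul]
    have h1 := mul_le_mul_of_nonneg_left hx.2.2 ha
    have h2 := mul_le_mul_of_nonneg_left hy.2.2 hb
    linarith

/-- the vertices of the base -/
noncomputable def q (i : Fin (n + 3)) : Sp (n + 3) := if i = Fin.last (n + 2) then 0 else e i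

theorem q_mem (i : Fin (n + 3)) : q i ∈ prism n := by
  rw [q]
  split_ifs with h
  · refine ⟨fun i => ?_, ?_, ?_⟩ <;> simp
  · obtain ⟨j, rfl⟩ := Fin.exists_castSucc_eq.2 h
    refine ⟨e_nonneg _, (sum_e_castSucc j).le, ?_⟩
    rw [e_apply, if_neg (Fin.castSucc_lt_last j).ne']
    norm_num

theorem q_add_mem (i : Fin (n + 3)) : q i + e (Fin.last (n + 2)) ∈ prism n := by
  have h0 := q_mem i
  refine ⟨fun j => ?_, ?_, ?_⟩
  · rw [PiLp.add_apply]
    exact add_nonneg (h0.1 j) (e_nonneg _ _)
  · simp only [PiLp.add_apply, Finset.sum_add_distrib, sum_e_last, add_zero]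
    exact h0.2.1
  · rw [PiLp.add_apply, e_apply, if_pos rfl, q]
    split_ifs with h
    · simp
    · rw [e_apply, if_neg (Ne.symm h)]; norm_num

theorem isPolytope_prism : IsPolytope (prism n) := by
  classical
  set S : Set (Sp (n + 3)) := range (fun i : Fin (n + 3) => q i) ∪
    range (fun i : Fin (n + 3) => q i + e (Fin.last (n + 2))) with hS
  refine ⟨S, (finite_range _).union (finite_range _), ?_⟩
  apply Subset.antisymm
  · intro x hx
    have hcv := convex_convexHull ℝ S
    have h1 : ∀ i : Fin (n + 3), q i + x (Fin.last (n + 2)) • e (Fin.last (n + 2)) ∈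
        convexHull ℝ S := by
      intro i
      have ha : q i ∈ convexHull ℝ S := subset_convexHull ℝ S (Or.inl ⟨i, rfl⟩)
      have hb : q i + e (Fin.last (n + 2)) ∈ convexHull ℝ S :=
        subset_convexHull ℝ S (Or.inr ⟨i, rfl⟩)
      have := hcv ha hb (sub_nonneg.2 hx.2.2) (hx.1 (Fin.last (n + 2))) (by ring)
      convert this using 1
      rw [smul_add, sub_smul, one_smul]
      abel
    let w : Fin (n + 3) → ℝ := fun i =>
      if i = Fin.last (n + 2) then 1 - ∑ i : Fin (n + 2), x i.castSucc else x i
    have hw0 : ∀ i ∈ Finset.univ, 0 ≤ w i := by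
      intro i _
      simp only [w]
      split_ifs
      · exact sub_nonneg.2 hx.2.1
      · exact hx.1 i
    have hwc : ∀ i : Fin (n + 2), w i.castSucc = x i.castSucc := by
      intro i
      simp only [w, (Fin.castSucc_lt_last i).ne, if_false]
    have hw1 : ∑ i, w i = 1 := by
      rw [Fin.sum_univ_castSucc]
      simp only [hwc]
      simp [w]
    have := hcv.sum_mem hw0 hw1 (fun i _ => h1 i)
    convert this using 1
    simp only [smul_add, Finset.sum_add_distrib, ← Finset.sum_smul, hw1, one_smul]
    ext j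
    rw [PiLp.add_apply, WithLp.ofLp_sum, Finset.sum_apply, PiLp.smul_apply, e_apply]
    rw [Fin.sum_univ_castSucc]
    have hql : (q (Fin.last (n + 2)) : Sp (n + 3)) = 0 := by simp [q]
    have hqc : ∀ i : Fin (n + 2), (q i.castSucc : Sp (n + 3)) = e i.castSucc := by
      intro i
      simp [q, (Fin.castSucc_lt_last i).ne]
    simp only [hql, hqc, hwc, smul_zero, PiLp.smul_apply, e_apply, PiLp.zero_apply, add_zero,
      smul_eq_mul, mul_ite, mul_one, mul_zero]
    by_cases hj : j = Fin.last (n + 2)
    · subst hj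
      rw [if_pos rfl, Finset.sum_eq_zero]
      · simp
      · intro i _
        rw [if_neg (Fin.castSucc_lt_last i).ne']
    · obtain ⟨k, rfl⟩ := Fin.exists_castSucc_eq.2 hj
      simp [Fin.castSucc_inj]
  · apply convexHull_min _ convex_prism
    rintro x (⟨i, rfl⟩ | ⟨i, rfl⟩)
    · exact q_mem i
    · exact q_add_mem i

/-! ### The tower -/

theorem Free.mono {k : ℕ} {j : Fin (n + 3)} (h : Free n k j) : Free n (k + 1) j := by
  rcases h with ⟨h1, h2⟩ | h
  · exact Or.inl ⟨h1, by omega⟩
  · exact Or.inr (by omega)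

theorem free_last {k : ℕ} : Free n k (Fin.last (n + 2)) ↔ n + 2 ≤ k := by
  simp only [Free, Fin.val_last]
  omega

/-- the base point -/
noncomputable def bp (n k : ℕ) : Sp (n + 3) := if n + 2 ≤ k then 0 else e (Fin.last (n + 2))

theorem bp_mem (k : ℕ) : bp n k ∈ tower n k := by
  rw [bp]
  split_ifs with h
  · refine ⟨⟨fun i => ?_, ?_, ?_⟩, ?_⟩
    · simp
    · simp
    · simp
    · intro j hj
      rw [if_neg]
      · rfl
      · rintro rfl
        exact hj (free_last.2 h)
  · refine ⟨⟨e_nonneg _, ?_, ?_⟩, ?_⟩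
    · rw [sum_e_last]; norm_num
    · rw [e_apply, if_pos rfl]
    · intro j _
      rw [e_apply]

theorem bp_add_mem {k : ℕ} {j : Fin (n + 3)} (hj : Free n k j) : bp n k + e j ∈ tower n k := by
  have hb := bp_mem (n := n) k
  refine ⟨⟨fun i => ?_, ?_, ?_⟩, ?_⟩
  · rw [PiLp.add_apply]
    exact add_nonneg (hb.1.1 i) (e_nonneg _ _)
  · simp only [PiLp.add_apply, Finset.sum_add_distrib]
    have h0 : ∑ i : Fin (n + 2), (bp n k) i.castSucc = 0 := by
      rw [bp]
      split_ifs
      · simp
      · exact sum_e_last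
    rw [h0, zero_add]
    by_cases hjl : j = Fin.last (n + 2)
    · subst hjl
      rw [sum_e_last]; norm_num
    · obtain ⟨i, rfl⟩ := Fin.exists_castSucc_eq.2 hjl
      exact (sum_e_castSucc i).le
  · rw [PiLp.add_apply]
    by_cases hjl : j = Fin.last (n + 2)
    · subst hjl
      rw [bp, if_pos (free_last.1 hj), e_apply, if_pos rfl]
      simp
    · rw [e_apply, if_neg (Ne.symm hjl), add_zero]
      exact hb.1.2.2
  · intro i hi
    have hij : i ≠ j := by
      rintro rfl
      exact hi hj
    rw [PiLp.add_apply, hb.2 i hi, e_apply, if_neg hij, add_zero]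

theorem vectorSpan_tower (k : ℕ) :
    vectorSpan ℝ (tower n k) = Submodule.span ℝ (range fun j : {j // Free n k j} => e j.1) := by
  classical
  apply le_antisymm
  · rw [vectorSpan_def, Submodule.span_le]
    rintro _ ⟨x, hx, y, hy, rfl⟩
    change x - y ∈ Submodule.span ℝ _
    have h1 : x - y = ∑ j : {j // Free n k j}, (x - y) j.1 • (e j.1 : Sp (n + 3)) := by
      ext i
      rw [WithLp.ofLp_sum, Finset.sum_apply]
      simp only [PiLp.smul_apply, e_apply, smul_eq_mul, mul_ite, mul_one, mul_zero]
      by_cases hi : Free n k i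
      · rw [Finset.sum_eq_single ⟨i, hi⟩]
        · simp
        · intro b _ hb
          rw [if_neg]
          intro h
          exact hb (Subtype.ext h.symm)
        · intro h
          exact absurd (Finset.mem_univ _) h
      · rw [Finset.sum_eq_zero]
        · rw [PiLp.sub_apply, hx.2 i hi, hy.2 i hi, sub_self]
        · intro b _
          rw [if_neg]
          rintro rfl
          exact hi b.2
    rw [h1]
    exact Submodule.sum_mem _ fun j _ => Submodule.smul_mem _ _ (Submodule.subset_span ⟨j, rfl⟩)
  · rw [Submodule.span_le]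
    rintro _ ⟨j, rfl⟩
    have := vsub_mem_vectorSpan ℝ (bp_add_mem j.2) (bp_mem (n := n) k)
    rwa [vsub_eq_sub, add_sub_cancel_left] at this

theorem linearIndependent_e : LinearIndependent ℝ (fun j : Fin (n + 3) => (e j : Sp (n + 3))) := by
  have h : (fun j : Fin (n + 3) => (e j : Sp (n + 3))) =
      ⇑(EuclideanSpace.basisFun (Fin (n + 3)) ℝ).toBasis := by
    ext j i
    simp [e]
  rw [h]
  exact (EuclideanSpace.basisFun (Fin (n + 3)) ℝ).toBasis.linearIndependent

theorem dimension_tower {k : ℕ} (hk : k ≤ n + 3) : dimension (tower n k) = k := by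
  classical
  rw [dimension, vectorSpan_tower, finrank_span_eq_card]
  · rw [Fintype.card_subtype]
    rcases Nat.lt_or_ge k (n + 3) with h | h
    · have h1 : Finset.univ.filter (Free n k) =
          (Finset.Icc 1 k).attachFin (fun j hj => by
            rw [Finset.mem_Icc] at hj; omega) := by
        ext j
        rw [Finset.mem_filter, Finset.mem_attachFin, Finset.mem_Icc, Free]
        simp only [Finset.mem_univ, true_and]
        omega
      rw [h1, Finset.card_attachFin, Nat.card_Icc]
      omega
    · have h1 : Finset.univ.filter (Free n k) = Finset.univ := by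
        ext j
        simp only [Finset.mem_filter, Finset.mem_univ, true_and, iff_true]
        exact Or.inr h
      rw [h1, Finset.card_univ, Fintype.card_fin]
      omega
  · exact linearIndependent_e.comp _ Subtype.val_injective

theorem tower_top : tower n (n + 3) = prism n := by
  ext x
  refine ⟨fun h => h.1, fun h => ⟨h, fun j hj => absurd (Or.inr le_rfl) hj⟩⟩

theorem isFace_tower (k : ℕ) : IsFace (prism n) (tower n k) := by
  classical
  intro _
  let c : Fin (n + 3) → ℝ := fun j =>
    if Free n k j then 0 else if j = Fin.last (n + 2) then 1 else -1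
  let m : Fin (n + 3) → ℝ := fun j =>
    if Free n k j then 0 else if j = Fin.last (n + 2) then 1 else 0
  let l : StrongDual ℝ (Sp (n + 3)) := ∑ j, c j • (EuclideanSpace.proj j)
  have hl : ∀ x, l x = ∑ j, c j * x j := by
    intro x
    simp [l]
  have hle : ∀ x ∈ prism n, ∀ j, c j * x j ≤ m j := by
    intro x hx j
    simp only [c, m]
    split_ifs with h1 h2
    · simp
    · subst h2
      rw [one_mul]
      exact hx.2.2
    · have := hx.1 j
      linarith
  have heq : ∀ x : Sp (n + 3), (∀ j, c j * x j = m j) ↔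
      ∀ j, ¬ Free n k j → x j = if j = Fin.last (n + 2) then 1 else 0 := by
    intro x
    constructor
    · intro h j hj
      have := h j
      simp only [c, m, if_neg hj] at this
      split_ifs at this ⊢ with h2
      · linarith
      · linarith
    · intro h j
      simp only [c, m]
      by_cases hj : Free n k j
      · rw [if_pos hj, if_pos hj, zero_mul]
      · rw [if_neg hj, if_neg hj, h j hj]
        split_ifs <;> simp
  have hbp : ∑ j, c j * (bp n k) j = ∑ j, m j :=
    Finset.sum_congr rfl fun j _ => (heq _).2 (bp_mem k).2 j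
  refine ⟨l, ?_⟩
  ext x
  constructor
  · rintro ⟨hx1, hx2⟩
    refine ⟨hx1, fun y hy => ?_⟩
    rw [hl, hl]
    calc ∑ j, c j * y j ≤ ∑ j, m j := Finset.sum_le_sum fun j _ => hle y hy j
      _ = ∑ j, c j * x j := Finset.sum_congr rfl fun j _ => ((heq x).2 hx2 j).symm
  · rintro ⟨hx1, hx2⟩
    refine ⟨hx1, (heq x).1 fun j => ?_⟩
    have h1 := hx2 _ (bp_mem k).1
    rw [hl, hl, hbp] at h1
    have h2 : ∑ j, c j * x j = ∑ j, m j :=
      le_antisymm (Finset.sum_le_sum fun j _ => hle x hx1 j) h1
    exact (Finset.sum_eq_sum_iff_of_le fun j _ => hle x hx1 j).1 h2 j (Finset.mem_univ j)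

theorem isTower : IsTower (prism n) (tower n) where
  face k _ := isFace_tower k
  nonempty k _ := ⟨_, bp_mem k⟩
  dim k hk := dimension_tower hk
  chain k hk := by
    refine LE.le.ssubset_of_ne ?_ ?_
    · rintro x ⟨hx1, hx2⟩
      exact ⟨hx1, fun j hj => hx2 j fun h => hj h.mono⟩
    · intro h
      have h1 := dimension_tower (n := n) (k := k) hk.le
      rw [h, dimension_tower hk] at h1
      omega
  top := tower_top

theorem isFullPolytope_prism : IsFullPolytope (prism n) := by
  refine ⟨isPolytope_prism, ⟨_, (bp_mem (n := n) 0).1⟩, ?_⟩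
  rw [← tower_top]
  exact dimension_tower le_rfl

end Pool.Agent.K4H73.Refine
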